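import Pool.Agent.Bloch.MainDiag

open MvPolynomial

namespace Pool.Agent.Results.MP_13bc1c_ag.DiagonalQuotients

/-- The closed subvarieties of dimension `i` of the closed subscheme of the complex projective
space with homogeneous coordinates `X s`, `s : σ`, defined by the homogeneous ideal `I`:
homogeneous prime ideals `p` containing `I` whose quotient (the coordinate ring of the affine
cone) has transcendence degree `i + 1` over `ℂ`. -/
def Subvar {σ : Type} (I : Ideal (MvPolynomial σ ℂ)) (i : ℕ) : Type :=
  {p : PrimeSpectrum (MvPolynomial σ ℂ) //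
    (∀ f ∈ p.asIdeal, ∀ n, homogeneousComponent n f ∈ p.asIdeal) ∧ I ≤ p.asIdeal ∧
      Cardinal.toNat (Algebra.trdeg ℂ (MvPolynomial σ ℂ ⧸ p.asIdeal)) = i + 1}

/-- The order of vanishing along `V` of the form `f` on the subvariety with ideal `W`: the length
over the local ring at `V` of the localisation at `V` of `ℂ[X] / (W + (f))`. -/
noncomputable def ordAlong {σ : Type} (W : Ideal (MvPolynomial σ ℂ)) (f : MvPolynomial σ ℂ)
    (V : PrimeSpectrum (MvPolynomial σ ℂ)) : ℕ :=
  (Module.length (Localization.AtPrime V.asIdeal) (LocalizedModule V.asIdeal.primeCompl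
    (MvPolynomial σ ℂ ⧸ (W ⊔ Ideal.span {f})))).toNat

/-- The principal divisors `div(f / g)` on subvarieties `W` of dimension `i + 1`, where `f` and `g`
are forms of the same degree which do not vanish on `W`. -/
def principalDivisors {σ : Type} (I : Ideal (MvPolynomial σ ℂ)) (i : ℕ) :
    Set (Subvar I i →₀ ℚ) :=
  {z | ∃ (W : Subvar I (i + 1)) (n : ℕ) (f g : MvPolynomial σ ℂ),
    f.IsHomogeneous n ∧ g.IsHomogeneous n ∧ f ∉ W.1.asIdeal ∧ g ∉ W.1.asIdeal ∧
    ∀ V : Subvar I i,
      z V = (ordAlong W.1.asIdeal f V.1 : ℚ) - (ordAlong W.1.asIdeal g V.1 : ℚ)}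

/-- The automorphism of `ℂ[X_k : k < t]` multiplying the variable `X_k` by
`exp(2πi/d) ^ (g k)`. -/
noncomputable def scaling {t : ℕ} (d : ℕ) (g : Fin t → ZMod d) :
    MvPolynomial (Fin t) ℂ →ₐ[ℂ] MvPolynomial (Fin t) ℂ :=
  aeval (fun k => C (Complex.exp (2 * Real.pi * Complex.I / d) ^ (g k).val) * X k)

/-- The differences `[V'] - [V]`, where `V'` is the image of `V` under a scaling belonging
to `G`. -/
def orbitDifferences {t : ℕ} (d : ℕ) (G : AddSubgroup (Fin t → ZMod d))
    (I : Ideal (MvPolynomial (Fin t) ℂ)) (i : ℕ) : Set (Subvar I i →₀ ℚ) :=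
  {z | ∃ g ∈ G, ∃ V V' : Subvar I i,
    V'.1.asIdeal = V.1.asIdeal.comap (scaling d g) ∧
    z = Finsupp.single V' 1 - Finsupp.single V 1}

/-- The ideal generated by the diagonal forms `∑ k, A e k * X_k ^ d`, `e < r`. -/
noncomputable def diagonalForms {t r : ℕ} (d : ℕ) (A : Matrix (Fin r) (Fin t) ℂ) :
    Ideal (MvPolynomial (Fin t) ℂ) :=
  Ideal.span (Set.range fun e : Fin r => ∑ k : Fin t, C (A e k) * X k ^ d)

/-- Let `X` be the complete intersection in `P^(t-1)` of the `r` diagonal hypersurfaces
`∑ k, A e k * X_k ^ d = 0`, where all the maximal minors of `A` are nonzero (so that `X` is smooth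
of dimension `n = t - 1 - r`), and `0 ≤ i ≤ n`. Let `d` be one of `2, 3, 4, 5, 7` and let `G` be any
group of scalings of the variables by `d`-th roots of unity. Suppose that every nonzero
`c : (ℤ/d)^t` of sum zero which is trivial on `G` and has fewer than `r` zeros satisfies
`∑ c_k ≤ d (n - i)`, where the residues `c_k` are represented by the integers
`0, …, d - 1` (that is, the Hodge numbers `h^{p,q}` of the primitive part of `H^n(X / G)` vanish
for `min (p, q) ≤ i`). Then the group of `G`-coinvariants of the Chow group of `i`-cycles of `X`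
with rational coefficients has dimension at most one. -/
theorem result (d t r i : ℕ) (hd : d = 2 ∨ d = 3 ∨ d = 4 ∨ d = 5 ∨ d = 7) (hi : i + r < t)
    (A : Matrix (Fin r) (Fin t) ℂ)
    (hA : ∀ S : Fin r ↪ Fin t, (A.submatrix id S).det ≠ 0)
    (G : AddSubgroup (Fin t → ZMod d))
    (H : ∀ c : Fin t → ZMod d, c ≠ 0 → ∑ k, c k = 0 → (∀ g ∈ G, ∑ k, g k * c k = 0) →
      (Finset.univ.filter (fun k => c k = 0)).card < r →
        ∑ k, (c k).val ≤ d * (t - 1 - r - i)) :
    Module.rank ℚ ((Subvar (diagonalForms d A) i →₀ ℚ) ⧸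
      Submodule.span ℚ (principalDivisors (diagonalForms d A) i ∪
        orbitDifferences d G (diagonalForms d A) i)) ≤ 1 := by
  classical
  have hd0 : 0 < d := by omega
  haveI : NeZero d := ⟨hd0.ne'⟩
  refine Bloch.main_diag d t r i hd0 hi A (fun S => hA S) G ?_
  intro c hc0 hcs hcG hcz
  refine Bloch.exists_part hd (r + i) c hcs ?_
  intro u v huv
  have hinj : ∀ x : ZMod d, u * x = 0 → x = 0 := by
    intro x hx
    calc x = (u * v) * x := by rw [huv, one_mul]
      _ = v * (u * x) := by ring
      _ = 0 := by rw [hx, mul_zero]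
  have h1 := H (fun k => u * c k) (by
    intro h
    apply hc0
    funext k
    exact hinj _ (congrFun h k)) (by rw [← Finset.mul_sum, hcs, mul_zero]) (by
    intro g hg
    have : ∑ k, g k * (u * c k) = u * ∑ k, g k * c k := by
      rw [Finset.mul_sum]
      apply Finset.sum_congr rfl
      intro k _
      ring
    rw [this, hcG g hg, mul_zero]) (by
    have : (Finset.univ.filter (fun k => u * c k = 0)) =
        (Finset.univ.filter (fun k => c k = 0)) := by
      ext k
      simp only [Finset.mem_filter, Finset.mem_univ, true_and]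
      exact ⟨hinj _, fun h => by rw [h, mul_zero]⟩
    rw [this]
    exact hcz)
  have h2 : d * (t - 1 - r - i) + d * (r + i + 1) = d * t := by
    rw [← Nat.mul_add]
    congr 1
    omega
  omega

end Pool.Agent.Results.MP_13bc1c_ag.DiagonalQuotients
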