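import Pool.Agent.H78.Pen.Fin
import Pool.Agent.H78.Pen.BlockMainG

open MvPolynomial

namespace Pool.Agent.Results.MP_13bc1c_ag.SebastianiThom

/-- The closed subvarieties of dimension `i` of the closed subscheme of the complex projective
space with homogeneous coordinates `X s`, `s : σ`, defined by the homogeneous ideal `I`:
homogeneous prime ideals `p` containing `I` whose quotient (the coordinate ring of the affine
cone) has transcendence degree `i + 1` over `ℂ`. -/
def Subvar {σ : Type} (I : Ideal (MvPolynomial σ ℂ)) (i : ℕ) : Type :=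
  {p : PrimeSpectrum (MvPolynomial σ ℂ) //
    (∀ f ∈ p.asIdeal, ∀ n, homogeneousComponent n f ∈ p.asIdeal) ∧ I ≤ p.asIdeal ∧
      Cardinal.toNat (Algebra.trdeg ℂ (MvPolynomial σ ℂ ⧸ p.asIdeal)) = i + 1}

/-- The order of vanishing along `V` of the form `f` on the subvariety with ideal `W`: the length
over the local ring at `V` of the localisation at `V` of `ℂ[X] / (W + (f))`. -/
noncomputable def ordAlong {σ : Type} (W : Ideal (MvPolynomial σ ℂ)) (f : MvPolynomial σ ℂ)
    (V : PrimeSpectrum (MvPolynomial σ ℂ)) : ℕ :=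
  (Module.length (Localization.AtPrime V.asIdeal) (LocalizedModule V.asIdeal.primeCompl
    (MvPolynomial σ ℂ ⧸ (W ⊔ Ideal.span {f})))).toNat

/-- The principal divisors `div(f / g)` on subvarieties `W` of dimension `i + 1`, where `f` and `g`
are forms of the same degree which do not vanish on `W`. -/
def principalDivisors {σ : Type} (I : Ideal (MvPolynomial σ ℂ)) (i : ℕ) :
    Set (Subvar I i →₀ ℚ) :=
  {z | ∃ (W : Subvar I (i + 1)) (n : ℕ) (f g : MvPolynomial σ ℂ),
    f.IsHomogeneous n ∧ g.IsHomogeneous n ∧ f ∉ W.1.asIdeal ∧ g ∉ W.1.asIdeal ∧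
    ∀ V : Subvar I i,
      z V = (ordAlong W.1.asIdeal f V.1 : ℚ) - (ordAlong W.1.asIdeal g V.1 : ℚ)}

/-- The automorphism of `ℂ[X_{k,j}]`, where `k < t` and `j ≤ ν k`, multiplying all the variables
`X_{k,j}` of the block `k` by `exp(2πi/d) ^ (g k)`. -/
noncomputable def blockScaling {t : ℕ} (d : ℕ) (ν : Fin t → ℕ) (g : Fin t → ZMod d) :
    MvPolynomial ((k : Fin t) × Fin (ν k + 1)) ℂ →ₐ[ℂ]
      MvPolynomial ((k : Fin t) × Fin (ν k + 1)) ℂ :=
  aeval (fun s => C (Complex.exp (2 * Real.pi * Complex.I / d) ^ (g s.1).val) * X s)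

/-- The differences `[V'] - [V]`, where `V'` is the image of `V` under a block scaling belonging
to `G`. -/
def orbitDifferences {t : ℕ} (d : ℕ) (ν : Fin t → ℕ) (G : AddSubgroup (Fin t → ZMod d))
    (I : Ideal (MvPolynomial ((k : Fin t) × Fin (ν k + 1)) ℂ)) (i : ℕ) :
    Set (Subvar I i →₀ ℚ) :=
  {z | ∃ g ∈ G, ∃ V V' : Subvar I i,
    V'.1.asIdeal = V.1.asIdeal.comap (blockScaling d ν g) ∧
    z = Finsupp.single V' 1 - Finsupp.single V 1}

/-- The ideal generated by the forms `F_e = ∑ k, f_{e,k}(X_{k,0}, …, X_{k,ν k})`. -/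
noncomputable def eqns {t r : ℕ} (ν : Fin t → ℕ)
    (f : Fin r → (k : Fin t) → MvPolynomial (Fin (ν k + 1)) ℂ) :
    Ideal (MvPolynomial ((k : Fin t) × Fin (ν k + 1)) ℂ) :=
  Ideal.span (Set.range fun e : Fin r => ∑ k : Fin t, rename (fun j => ⟨k, j⟩) (f e k))

open Classical in
/-- A set of blocks is big, with `a` variables to spare, if it has at least `d + a` variables, or if
all the forms `f_{e,k}` of its blocks are zero and it has more than `a` variables. -/
def IsBig {t r : ℕ} (d : ℕ) (ν : Fin t → ℕ)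
    (f : Fin r → (k : Fin t) → MvPolynomial (Fin (ν k + 1)) ℂ) (a : ℕ) (S : Finset (Fin t)) :
    Prop :=
  (if ∀ e, ∀ k ∈ S, f e k = 0 then 0 else d - 1) + a < ∑ k ∈ S, (ν k + 1)

/-- Let `X` be the projective scheme defined by `r` forms `F_e = ∑ k, f_{e,k}` of degree `d`, where
`f_{e,k}` is an arbitrary form of degree `d` in the variables of the block `k`, `k < t`, and let
`G` be a group of scalings of the blocks by `d`-th roots of unity. Suppose that
`d (r + i) < t + (d - 1) b`, where `b` blocks are big; or that `g (r + i) < t`, where any `g` blocks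
are big together; or that `r + i < t` and that for every nonzero character `c` of `(ℤ/d)^t` of sum
zero which is trivial on `G` the blocks can be distributed into groups and these into `q` nonempty
parts of sum zero, such that the groups do not all have sum zero and `r + i + 1 ≤ q + e`, where
`e` groups are big, with one variable to spare if the sum over the group is zero; or that `d = 2`
and `r > 0` and that for every character `c` of `(ℤ/2)^t` of sum zero which is trivial on `G` the
integer `2 (r + i)` is less than the number of the variables plus the number of the blocks `k` for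
which the sum of `c k` and the number of the variables of the block is odd. Then the group of
`G`-coinvariants of the Chow group of `i`-cycles of `X` with rational coefficients has dimension at
most one. -/
theorem result (d t r i : ℕ) (hd : 0 < d) (ν : Fin t → ℕ)
    (f : Fin r → (k : Fin t) → MvPolynomial (Fin (ν k + 1)) ℂ)
    (hf : ∀ e k, (f e k).IsHomogeneous d)
    (G : AddSubgroup (Fin t → ZMod d))
    (H : (∃ B : Finset (Fin t), (∀ k ∈ B, IsBig d ν f 0 {k}) ∧
        d * (r + i) < t + (d - 1) * B.card) ∨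
      (∃ g, 0 < g ∧ g * (r + i) < t ∧ ∀ S : Finset (Fin t), S.card = g → IsBig d ν f 0 S) ∨
      (r + i < t ∧ ∀ c : Fin t → ZMod d, c ≠ 0 → ∑ k, c k = 0 →
        (∀ g ∈ G, ∑ k, g k * c k = 0) →
        ∃ (q m : ℕ) (ρ : Fin t → Fin m) (π : Fin m → Fin q) (E : Finset (Fin m)),
          Function.Surjective ρ ∧ Function.Surjective π ∧
          (∀ l, ∑ k ∈ Finset.univ.filter (fun k => π (ρ k) = l), c k = 0) ∧
          (∃ j, ∑ k ∈ Finset.univ.filter (fun k => ρ k = j), c k ≠ 0) ∧
          r + i + 1 ≤ q + E.card ∧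
          ∀ j ∈ E, IsBig d ν f
            (if ∑ k ∈ Finset.univ.filter (fun k => ρ k = j), c k = 0 then 1 else 0)
            (Finset.univ.filter (fun k => ρ k = j))) ∨
      (d = 2 ∧ 0 < r ∧ ∀ c : Fin t → ZMod d, ∑ k, c k = 0 → (∀ g ∈ G, ∑ k, g k * c k = 0) →
        2 * (r + i) < ∑ k, (ν k + 1) +
          (Finset.univ.filter (fun k => ((ν k + 1 : ℕ) : ZMod d) + c k = 1)).card)) :
    Module.rank ℚ ((Subvar (eqns ν f) i →₀ ℚ) ⧸
      Submodule.span ℚ (principalDivisors (eqns ν f) i ∪ orbitDifferences d ν G (eqns ν f) i)) ≤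
        1 := by
  classical
  rcases H with ⟨B, h1, h2⟩ | ⟨g, h1, h2, h3⟩ | ⟨h1, h2⟩ | ⟨rfl, hr, H⟩
  · exact Bloch.Pen.block_mainG Bloch.Pen.systemsG i hd f hf G (Or.inl ⟨B, h1, h2⟩)
  · exact Bloch.Pen.block_mainG Bloch.Pen.systemsG i hd f hf G (Or.inr (Or.inl ⟨g, h1, h2, h3⟩))
  · refine Bloch.Pen.block_mainG Bloch.Pen.systemsG i hd f hf G (Or.inr (Or.inr ⟨h1,
      fun c c0 c1 c2 => ?_⟩))
    obtain ⟨q, m, ρ, π, E, h3, h4, h5, ⟨j, hj⟩, h7, h8⟩ := h2 c c0 c1 c2
    refine ⟨q, m, ρ, π, E, h3, h4, ?_, ⟨j, ?_⟩, h7, ?_⟩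
    · intro l
      convert h5 l
    · convert hj
    · intro j hj
      have h9 := h8 j hj
      unfold IsBig at h9
      unfold Bloch.Pen.bgv
      convert h9
  · refine Bloch.Pen.q_mainG Bloch.Pen.systemsG t r i hr ν f hf G fun c h1 h2 => ?_
    convert H c h1 h2

end Pool.Agent.Results.MP_13bc1c_ag.SebastianiThom
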