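import Pool.Agent.H78.Pen.Fin
import Pool.Agent.H78.Pen.RedG

open MvPolynomial

namespace Pool.Agent.Results.MP_13bc1c_ag.SeparatedForms

/-- The closed subvarieties of dimension `i` of the closed subscheme of the complex projective
space with homogeneous coordinates `X s`, `s : σ`, defined by the homogeneous ideal `I`:
homogeneous prime ideals `p` containing `I` whose quotient (the coordinate ring of the affine
cone) has transcendence degree `i + 1` over `ℂ`. -/
def Subvar {σ : Type} (I : Ideal (MvPolynomial σ ℂ)) (i : ℕ) : Type :=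
  {p : PrimeSpectrum (MvPolynomial σ ℂ) //
    (∀ f ∈ p.asIdeal, ∀ n, homogeneousComponent n f ∈ p.asIdeal) ∧ I ≤ p.asIdeal ∧
      Cardinal.toNat (Algebra.trdeg ℂ (MvPolynomial σ ℂ ⧸ p.asIdeal)) = i + 1}

/-- The order of vanishing along `V` of the form `f` on the subvariety with ideal `W`: the length
over the local ring at `V` of the localisation at `V` of `ℂ[X] / (W + (f))`. -/
noncomputable def ordAlong {σ : Type} (W : Ideal (MvPolynomial σ ℂ)) (f : MvPolynomial σ ℂ)
    (V : PrimeSpectrum (MvPolynomial σ ℂ)) : ℕ :=
  (Module.length (Localization.AtPrime V.asIdeal) (LocalizedModule V.asIdeal.primeCompl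
    (MvPolynomial σ ℂ ⧸ (W ⊔ Ideal.span {f})))).toNat

/-- The principal divisors `div(f / g)` on subvarieties `W` of dimension `i + 1`, where `f` and `g`
are forms of the same degree which do not vanish on `W`. -/
def principalDivisors {σ : Type} (I : Ideal (MvPolynomial σ ℂ)) (i : ℕ) :
    Set (Subvar I i →₀ ℚ) :=
  {z | ∃ (W : Subvar I (i + 1)) (n : ℕ) (f g : MvPolynomial σ ℂ),
    f.IsHomogeneous n ∧ g.IsHomogeneous n ∧ f ∉ W.1.asIdeal ∧ g ∉ W.1.asIdeal ∧
    ∀ V : Subvar I i,
      z V = (ordAlong W.1.asIdeal f V.1 : ℚ) - (ordAlong W.1.asIdeal g V.1 : ℚ)}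

/-- The automorphism of `ℂ[X]` multiplying the variable `X s` by `exp(2πi/n) ^ (g s)`. -/
noncomputable def scaling {σ : Type} (n : ℕ) (g : σ → ZMod n) :
    MvPolynomial σ ℂ →ₐ[ℂ] MvPolynomial σ ℂ :=
  aeval (fun s => C (Complex.exp (2 * Real.pi * Complex.I / n) ^ (g s).val) * X s)

/-- The differences `[V'] - [V]`, where `V'` is the image of `V` under a scaling belonging
to `G`. -/
def orbitDifferences {σ : Type} (n : ℕ) (G : AddSubgroup (σ → ZMod n))
    (I : Ideal (MvPolynomial σ ℂ)) (i : ℕ) : Set (Subvar I i →₀ ℚ) :=
  {z | ∃ g ∈ G, ∃ V V' : Subvar I i,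
    V'.1.asIdeal = V.1.asIdeal.comap (scaling n g) ∧
    z = Finsupp.single V' 1 - Finsupp.single V 1}

/-- The group of `G`-coinvariants of the Chow group of `i`-cycles with rational coefficients of the
projective scheme defined by the ideal `I` has dimension at most one. -/
def DimLeOne {σ : Type} (n : ℕ) (G : AddSubgroup (σ → ZMod n)) (I : Ideal (MvPolynomial σ ℂ))
    (i : ℕ) : Prop :=
  Module.rank ℚ ((Subvar I i →₀ ℚ) ⧸
    Submodule.span ℚ (principalDivisors I i ∪ orbitDifferences n G I i)) ≤ 1

/-- Let `M` be a set of monomials of degree `d ≥ 2` in the variables `X s`, `s : σ`, and let `G` be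
a group of scalings of the variables by `n`-th roots of unity, which leaves all the monomials in
`M` invariant (for example, the trivial group). Let `X` be the projective scheme defined by `r > 0`
forms `F_e`, linear combinations of monomials in `M`.

Suppose that `r + i + 2` is at most the number of the variables, and that for all the hypersurfaces
with an equation with monomials in `M` the groups of `G`-coinvariants of the Chow groups of
`j`-cycles have dimension at most one, for `i ≤ j < i + r`; or that the number of the variables is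
greater than `c * d`, where `r + i ≤ c`, and that there are `c` disjoint groups
`V 0, …, V (c - 1)` of at least two variables each, such that no monomial in `M` contains
variables of two different groups, and such that the degree of the monomials in `M` in the
variables of every group is at most the number of these variables (which holds if every group has
at least `d` variables); the variables outside the groups are arbitrary.

Then the group of `G`-coinvariants of the Chow group of `i`-cycles of `X` with rational
coefficients has dimension at most one. -/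
theorem result {σ : Type} [Fintype σ] (d r i n : ℕ) (hd : 2 ≤ d) (hr : 0 < r) (hn : 0 < n)
    (M : Set (σ →₀ ℕ)) (hM : ∀ m ∈ M, m.degree = d) (G : AddSubgroup (σ → ZMod n))
    (hG : ∀ g ∈ G, ∀ m ∈ M, ∑ s, g s * (m s : ZMod n) = 0)
    (F : Fin r → MvPolynomial σ ℂ) (hF : ∀ e, ∀ m ∈ (F e).support, m ∈ M)
    (H : (r + i + 2 ≤ Fintype.card σ ∧ ∀ j, i ≤ j → j < i + r → ∀ f : MvPolynomial σ ℂ,
        (∀ m ∈ f.support, m ∈ M) → DimLeOne n G (Ideal.span {f}) j) ∨
      ∃ (c : ℕ) (V : Fin c → Finset σ), r + i ≤ c ∧ c * d < Fintype.card σ ∧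
        (∀ l l', l ≠ l' → Disjoint (V l) (V l')) ∧ (∀ l, 2 ≤ (V l).card) ∧
        (∀ m ∈ M, ∀ l l', l ≠ l' → ∀ s ∈ V l, ∀ s' ∈ V l', m s = 0 ∨ m s' = 0) ∧
        (∀ m ∈ M, ∀ l, ∑ s ∈ V l, m s ≤ (V l).card)) :
    DimLeOne n G (Ideal.span (Set.range F)) i := by
  have : NeZero n := ⟨hn.ne'⟩
  exact Bloch.Pen.red_mainG Bloch.Pen.systemsG hd hr M hM G hG F hF H

end Pool.Agent.Results.MP_13bc1c_ag.SeparatedForms
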