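import Pool.Agent.H78.Pen.Fin
import Pool.Agent.H78.Pen.SumMainG

open MvPolynomial

namespace Pool.Agent.Results.MP_13bc1c_ag.SumsOfForms

/-- The closed subvarieties of dimension `i` of the closed subscheme of the complex projective
space with homogeneous coordinates `X s`, `s : σ`, defined by the homogeneous ideal `I`:
homogeneous prime ideals `p` containing `I` whose quotient (the coordinate ring of the affine
cone) has transcendence degree `i + 1` over `ℂ`. -/
def Subvar {σ : Type} (I : Ideal (MvPolynomial σ ℂ)) (i : ℕ) : Type :=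
  {p : PrimeSpectrum (MvPolynomial σ ℂ) //
    (∀ f ∈ p.asIdeal, ∀ n, homogeneousComponent n f ∈ p.asIdeal) ∧ I ≤ p.asIdeal ∧
      Cardinal.toNat (Algebra.trdeg ℂ (MvPolynomial σ ℂ ⧸ p.asIdeal)) = i + 1}

/-- The order of vanishing along `V` of the form `f` on the subvariety with ideal `W`: the length
over the local ring at `V` of the localisation at `V` of `ℂ[X] / (W + (f))`. -/
noncomputable def ordAlong {σ : Type} (W : Ideal (MvPolynomial σ ℂ)) (f : MvPolynomial σ ℂ)
    (V : PrimeSpectrum (MvPolynomial σ ℂ)) : ℕ :=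
  (Module.length (Localization.AtPrime V.asIdeal) (LocalizedModule V.asIdeal.primeCompl
    (MvPolynomial σ ℂ ⧸ (W ⊔ Ideal.span {f})))).toNat

/-- The principal divisors `div(f / g)` on subvarieties `W` of dimension `i + 1`, where `f` and `g`
are forms of the same degree which do not vanish on `W`. -/
def principalDivisors {σ : Type} (I : Ideal (MvPolynomial σ ℂ)) (i : ℕ) :
    Set (Subvar I i →₀ ℚ) :=
  {z | ∃ (W : Subvar I (i + 1)) (n : ℕ) (f g : MvPolynomial σ ℂ),
    f.IsHomogeneous n ∧ g.IsHomogeneous n ∧ f ∉ W.1.asIdeal ∧ g ∉ W.1.asIdeal ∧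
    ∀ V : Subvar I i,
      z V = (ordAlong W.1.asIdeal f V.1 : ℚ) - (ordAlong W.1.asIdeal g V.1 : ℚ)}

/-- The ideal generated by the forms `F_e = ∑ k, f_{e,k}(X_{k,0}, …, X_{k,n k - 1})`. -/
noncomputable def eqns {t r : ℕ} (n : Fin t → ℕ)
    (f : Fin r → (k : Fin t) → MvPolynomial (Fin (n k)) ℂ) :
    Ideal (MvPolynomial ((k : Fin t) × Fin (n k)) ℂ) :=
  Ideal.span (Set.range fun e : Fin r => ∑ k : Fin t, rename (fun j => ⟨k, j⟩) (f e k))

/-- Every set `M` of at most `d` indices contains `j` disjoint subsets, on each of which the sum of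
the `m k` is at least `d`, where `j` is such that the sum `m(M)` of the `m k` over `M` is at most
`d (1 + j)`; and if `m(M) > d` but all the sums over `M` with one index removed are less than `d`,
then `m(M) = d + 1`. -/
def Packable {t : ℕ} (d : ℕ) (m : Fin t → ℕ) : Prop :=
  ∀ M : Finset (Fin t), M.Nonempty → M.card ≤ d →
    (∃ (j : ℕ) (φ : Fin t → ℕ), (∀ l < j, d ≤ ∑ k ∈ M.filter (fun k => φ k = l), m k) ∧
      ∑ k ∈ M, m k ≤ d * (1 + j)) ∧
    (d < ∑ k ∈ M, m k → (∀ k ∈ M, ∑ l ∈ M.erase k, m l < d) → ∑ k ∈ M, m k = d + 1)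

/-- Let `X` be the projective scheme defined by `r > 0` forms `F_e = ∑ k, f_{e,k}` of degree
`d ≥ 2`, where `f_{e,k}` is a form (possibly zero) in the `n k` variables of the block `k`, let
`i ≥ 0`, and let `1 ≤ m k ≤ n k` be integers of sum greater than `d (r + i)`. Suppose that all
`m k` are at most `2` or equal to `d` or, for one `k`, to `d + 1`; or that all `m k` divide `d` or,
for one `k`, are equal to `d + 1`, those dividing `d` being pairwise comparable under divisibility;
or that all `m k` are at most `3` and `d` is not congruent to `1` modulo `3`; or that all `m k` are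
equal and divide `d + 1`; or that `m` is packable. Then the Chow group of `i`-cycles of `X` with
rational coefficients has dimension at most one. -/
theorem result (d t r i : ℕ) (hd : 2 ≤ d) (hr : 0 < r) (n : Fin t → ℕ)
    (f : Fin r → (k : Fin t) → MvPolynomial (Fin (n k)) ℂ)
    (hf : ∀ e k, (f e k).IsHomogeneous d)
    (m : Fin t → ℕ) (hm : ∀ k, 0 < m k ∧ m k ≤ n k) (hsum : d * (r + i) < ∑ k, m k)
    (H : ((∀ k, m k ≤ 2 ∨ m k = d ∨ m k = d + 1) ∧
        ∀ k l, m k = d + 1 → m l = d + 1 → k = l) ∨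
      ((∀ k, m k ∣ d ∨ m k = d + 1) ∧ (∀ k l, m k = d + 1 → m l = d + 1 → k = l) ∧
        ∀ k l, m k ∣ d → m l ∣ d → m k ∣ m l ∨ m l ∣ m k) ∨
      ((∀ k, m k ≤ 3) ∧ d % 3 ≠ 1) ∨
      (∃ w, w ∣ d + 1 ∧ ∀ k, m k = w) ∨ Packable d m) :
    Module.rank ℚ ((Subvar (eqns n f) i →₀ ℚ) ⧸
      Submodule.span ℚ (principalDivisors (eqns n f) i)) ≤ 1 :=
  Bloch.Pen.sums_mainG Bloch.Pen.systemsG d t r i hd hr n f hf m hm hsum H

end Pool.Agent.Results.MP_13bc1c_ag.SumsOfForms
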